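import Mathlib

set_option autoImplicit false

namespace Pool.Agent.Helper36.Pentagon


/-- A unit-rod structure in the Euclidean plane (modelled as `ℂ`): finitely many distinct joints and
a graph of rods on them; a rod is the closed segment between its two end joints, which are at
distance exactly one; two distinct rods meet only in a common end joint, and no joint lies in the
interior of a rod. -/
structure UnitRodStructure where
  /-- number of joints -/
  n : ℕ
  /-- positions of the joints -/
  joint : Fin n → ℂ
  /-- which pairs of joints are joined by a rod -/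
  rod : SimpleGraph (Fin n)
  joint_injective : Function.Injective joint
  unit_length : ∀ i j, rod.Adj i j → dist (joint i) (joint j) = 1
  noncrossing : ∀ i j k l, rod.Adj i j → rod.Adj k l → s(i, j) ≠ s(k, l) →
    ∀ z, z ∈ segment ℝ (joint i) (joint j) → z ∈ segment ℝ (joint k) (joint l) →
      ∃ m, (m = i ∨ m = j) ∧ (m = k ∨ m = l) ∧ z = joint m
  no_interior_joint : ∀ i j k, rod.Adj i j → joint k ∈ segment ℝ (joint i) (joint j) →
    k = i ∨ k = j

/-- Every continuous motion of the joints (parametrised by the unit interval) that keeps the length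
of every rod is the restriction of a continuous motion of the plane by isometries. -/
def UnitRodStructure.IsRigid (S : UnitRodStructure) : Prop :=
  ∀ γ : unitInterval → Fin S.n → ℂ, Continuous γ → γ 0 = S.joint →
    (∀ t i j, S.rod.Adj i j → dist (γ t i) (γ t j) = dist (S.joint i) (S.joint j)) →
    ∃ Φ : unitInterval → (ℂ ≃ᵢ ℂ), (∀ z, Continuous fun t => Φ t z) ∧
      Φ 0 = IsometryEquiv.refl ℂ ∧ ∀ t i, γ t i = Φ t (S.joint i)

/-- The vertices of the fixed regular pentagon of side one: `V 0 = 0` and
`V (k+1) = V k + exp (2 π i k / 5)`. -/
noncomputable def pentagonVertex (k : ℕ) : ℂ :=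
  ∑ j ∈ Finset.range k, Complex.exp (2 * Real.pi * Complex.I * j / 5)

/-- `S` is a bracing of the regular unit pentagon with exactly `k` additional rods. -/
def UnitRodStructure.IsBracing (S : UnitRodStructure) (k : ℕ) : Prop :=
  S.IsRigid ∧
  (∃ c : Fin 5 → Fin S.n, ∀ i : Fin 5,
    S.joint (c i) = pentagonVertex i ∧ S.rod.Adj (c i) (c (i + 1))) ∧
  S.rod.edgeSet.ncard = 5 + k

end Pool.Agent.Helper36.Pentagon
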