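import Mathlib
import Pool.Agent.Helper36.PentDefs

set_option autoImplicit false

namespace Pool.Agent.Helper36.Pentagon

noncomputable def h : ℝ := Real.sqrt 3 / 2
noncomputable def x0 : ℝ := (Real.sqrt 5 - 1) / 4
noncomputable def y0 : ℝ := Real.sqrt (1 - x0 ^ 2)
noncomputable def eta : ℂ := ⟨1 / 2, h⟩

lemma hh : h ^ 2 = 3 / 4 := by
  unfold h
  rw [div_pow, Real.sq_sqrt (by norm_num)]
  norm_num

lemma hx : 4 * x0 ^ 2 + 2 * x0 - 1 = 0 := by
  have h5 : Real.sqrt 5 ^ 2 = 5 := Real.sq_sqrt (by norm_num)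
  unfold x0
  linear_combination (1 / 4 : ℝ) * h5

lemma x0_lo : (0.309016 : ℝ) < x0 := by
  have h5 : (2.236067 : ℝ) < Real.sqrt 5 := by
    apply Real.lt_sqrt_of_sq_lt
    norm_num
  unfold x0
  linarith

lemma x0_hi : x0 < (0.309018 : ℝ) := by
  have h5 : Real.sqrt 5 < (2.236069 : ℝ) := by
    rw [Real.sqrt_lt' (by norm_num)]
    norm_num
  unfold x0
  linarith

lemma hy : x0 ^ 2 + y0 ^ 2 = 1 := by
  have h1 : 0 ≤ 1 - x0 ^ 2 := by nlinarith [x0_lo, x0_hi]
  unfold y0
  rw [Real.sq_sqrt h1]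
  ring

lemma h_lo : (0.866025 : ℝ) < h := by
  have h3 : (1.73205 : ℝ) < Real.sqrt 3 := by
    apply Real.lt_sqrt_of_sq_lt
    norm_num
  unfold h
  linarith

lemma h_hi : h < (0.866026 : ℝ) := by
  have h3 : Real.sqrt 3 < (1.732052 : ℝ) := by
    rw [Real.sqrt_lt' (by norm_num)]
    norm_num
  unfold h
  linarith

lemma y0_lo : (0.951056 : ℝ) < y0 := by
  unfold y0
  apply Real.lt_sqrt_of_sq_lt
  nlinarith [x0_lo, x0_hi]

lemma y0_hi : y0 < (0.951058 : ℝ) := by
  unfold y0
  rw [Real.sqrt_lt' (by norm_num)]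
  nlinarith [x0_lo, x0_hi]

lemma xh_lo : (0.26761 : ℝ) < x0 * h := by nlinarith [x0_lo, x0_hi, h_lo, h_hi]
lemma xh_hi : x0 * h < (0.26763 : ℝ) := by nlinarith [x0_lo, x0_hi, h_lo, h_hi]
lemma yh_lo : (0.82363 : ℝ) < y0 * h := by nlinarith [y0_lo, y0_hi, h_lo, h_hi]
lemma yh_hi : y0 * h < (0.82365 : ℝ) := by nlinarith [y0_lo, y0_hi, h_lo, h_hi]
lemma xy_lo : (0.29389 : ℝ) < x0 * y0 := by nlinarith [y0_lo, y0_hi, x0_lo, x0_hi]
lemma xy_hi : x0 * y0 < (0.2939 : ℝ) := by nlinarith [y0_lo, y0_hi, x0_lo, x0_hi]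

/-- the 24 joints -/
noncomputable def P : Fin 24 → ℂ :=
  ![⟨0, 0⟩,
    ⟨1, 0⟩,
    ⟨1 + x0, y0⟩,
    ⟨1 / 2, y0 + 2 * (x0 * y0)⟩,
    ⟨-(x0), y0⟩,
    ⟨-(1 / 2 * x0) - (y0 * h), 1 / 2 * y0 - (x0 * h)⟩,
    ⟨-(3 / 2 * x0) - (y0 * h), 3 / 2 * y0 - (x0 * h)⟩,
    ⟨1 / 2, -(h)⟩,
    ⟨3 / 2, -(h)⟩,
    ⟨2, 0⟩,
    ⟨2 + x0, y0⟩,
    ⟨2 + 1 / 2 * x0 + (y0 * h), 1 / 2 * y0 - (x0 * h)⟩,
    ⟨2 + 3 / 2 * x0 + (y0 * h), 3 / 2 * y0 - (x0 * h)⟩,
    ⟨2 + 2 * x0, 2 * y0⟩,
    ⟨2 + 3 / 2 * x0 - (y0 * h), 3 / 2 * y0 + (x0 * h)⟩,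
    ⟨1 + 3 / 2 * x0 - (y0 * h), 3 / 2 * y0 + (x0 * h)⟩,
    ⟨3 / 2 + 3 / 2 * x0 - (y0 * h), 3 / 2 * y0 + h + (x0 * h)⟩,
    ⟨1 / 2 - (y0 * h), 3 / 2 * y0⟩,
    ⟨1 / 4 - 3 / 2 * x0 - (y0 * h), 3 / 2 * y0 + 1 / 2 * h + (x0 * h)⟩,
    ⟨3 / 4 - (y0 * h), 3 / 2 * y0 + 1 / 2 * h + 2 * (x0 * h)⟩,
    ⟨1 / 2 - 3 / 2 * x0 - (y0 * h), 3 / 2 * y0 + h + 3 * (x0 * h)⟩,
    ⟨1 - (y0 * h), 3 / 2 * y0 + h + 2 * (x0 * h)⟩,
    ⟨3 / 4 - (y0 * h), 3 / 2 * y0 + 3 / 2 * h + 4 * (x0 * h)⟩,
    ⟨5 / 4 + 3 / 2 * x0 - (y0 * h), 3 / 2 * y0 + 3 / 2 * h + 3 * (x0 * h)⟩]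

/-- decimal approximations, scaled by `10000` -/
def L : Fin 24 → ℤ × ℤ :=
  ![(0, 0), (10000, 0), (13090, 9511), (5000, 15388), (-3090, 9511), (-9781, 2079),
    (-12872, 11590), (5000, -8660), (15000, -8660), (20000, 0), (23090, 9511), (29781, 2079),
    (32872, 11590), (26180, 19021), (16399, 16942), (6399, 16942), (11399, 25602),
    (-3236, 14266), (-10372, 21272), (-736, 23948), (-7872, 30955), (1764, 28278),
    (-736, 37961), (8899, 35285)]

/-- the 45 rods -/
def rodList : List (Fin 24 × Fin 24) :=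
  [(0, 1), (1, 2), (2, 3), (3, 4), (0, 4), (0, 5), (4, 5), (4, 6), (5, 6), (0, 7), (1, 7), (1, 8),
   (7, 8), (1, 9), (8, 9), (9, 10), (2, 10), (9, 11), (10, 11), (11, 12), (10, 12), (12, 13),
   (10, 13), (13, 14), (10, 14), (14, 15), (2, 15), (15, 16), (14, 16), (6, 17), (15, 17), (6, 18),
   (17, 18), (18, 19), (17, 19), (15, 19), (18, 20), (19, 20), (20, 21), (16, 21), (20, 22),
   (21, 22), (22, 23), (21, 23), (16, 23)]

lemma P_close (i : Fin 24) : |(P i).re - (L i).1 / 10000| ≤ 2 / 10000 ∧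
    |(P i).im - (L i).2 / 10000| ≤ 2 / 10000 := by
  have a1 := x0_lo
  have a2 := x0_hi
  have a3 := y0_lo
  have a4 := y0_hi
  have a5 := h_lo
  have a6 := h_hi
  have a7 := xh_lo
  have a8 := xh_hi
  have a9 := yh_lo
  have a10 := yh_hi
  have a11 := xy_lo
  have a12 := xy_hi
  rw [abs_le, abs_le]
  fin_cases i <;> refine ⟨⟨?_, ?_⟩, ?_, ?_⟩ <;> norm_num [P, L] <;> linarith

lemma nrm {z w : ℂ} (hzw : (z.re - w.re) ^ 2 + (z.im - w.im) ^ 2 = 1) : ‖z - w‖ = 1 := by
  have h1 : ‖z - w‖ ^ 2 = 1 := by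
    rw [← Complex.normSq_eq_norm_sq, Complex.normSq_apply]
    simp only [Complex.sub_re, Complex.sub_im]
    linarith
  nlinarith [norm_nonneg (z - w)]

lemma P_unit : ∀ q ∈ rodList, ‖P q.1 - P q.2‖ = 1 := by
  have e1 := hh
  have e2 := hx
  have e3 := hy
  simp only [rodList, List.forall_mem_cons, List.not_mem_nil, false_imp_iff, implies_true, and_true]
  refine ⟨?_, ?_, ?_, ?_, ?_, ?_, ?_, ?_, ?_, ?_, ?_, ?_, ?_, ?_, ?_, ?_, ?_, ?_, ?_, ?_, ?_, ?_, ?_,
    ?_, ?_, ?_, ?_, ?_, ?_, ?_, ?_, ?_, ?_, ?_, ?_, ?_, ?_, ?_, ?_, ?_, ?_, ?_, ?_, ?_, ?_⟩ <;>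
  apply nrm <;> simp [P] <;>
  first
  | (norm_num; done)
  | linear_combination e3
  | linear_combination e1
  | linear_combination (x0 ^ 2 + y0 ^ 2) * e1 + e3
  | linear_combination x0 ^ 2 * e1 + (3 / 4) * e2
  | linear_combination (1 / 2 + 2 * x0) ^ 2 * e1 + (3 / 4) * e2
  | linear_combination (1 / 2 + x0) ^ 2 * e1 + (3 / 4) * e2
  | linear_combination 4 * x0 ^ 2 * e3 + (-x0 ^ 2 + x0 / 2 + 3 / 4) * e2


/-- Boolean adjacency -/
def adjB (i j : Fin 24) : Bool := rodList.contains (i, j) || rodList.contains (j, i)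

lemma adj_cases {i j : Fin 24} (hij : adjB i j = true) : (i, j) ∈ rodList ∨ (j, i) ∈ rodList := by
  unfold adjB at hij
  simpa [Bool.or_eq_true] using hij

lemma adjB_symm {i j : Fin 24} (hij : adjB i j = true) : adjB j i = true := by
  unfold adjB at *
  rw [Bool.or_comm]
  exact hij

lemma P_unit' {i j : Fin 24} (hij : adjB i j = true) : ‖P i - P j‖ = 1 := by
  rcases adj_cases hij with h1 | h1
  · exact P_unit _ h1
  · rw [norm_sub_rev]
    exact P_unit _ h1

/-- normalised configurations near the nominal one -/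
structure Good (z : Fin 24 → ℂ) : Prop where
  z0 : z 0 = 0
  z1 : z 1 = 1
  unit : ∀ i j, adjB i j = true → ‖z i - z j‖ = 1
  close : ∀ i, |(z i).re - (L i).1 / 10000| ≤ 1 / 50 ∧ |(z i).im - (L i).2 / 10000| ≤ 1 / 50

lemma P_good : Good P := by
  refine ⟨?_, ?_, fun i j hij => P_unit' hij, fun i => ?_⟩
  · apply Complex.ext <;> simp [P]
  · apply Complex.ext <;> simp [P]
  · have := P_close i
    exact ⟨by linarith [this.1], by linarith [this.2]⟩

lemma sq_of_norm {z w : ℂ} (h1 : ‖z - w‖ = 1) : (z.re - w.re) ^ 2 + (z.im - w.im) ^ 2 = 1 := by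
  have h2 : ‖z - w‖ ^ 2 = 1 := by rw [h1]; norm_num
  rw [← Complex.normSq_eq_norm_sq, Complex.normSq_apply] at h2
  simp only [Complex.sub_re, Complex.sub_im] at h2
  linarith

/-- cross products are controlled by approximate data -/
lemma cross_pos {p1 p2 r1 r2 α β γ δ : ℝ} (h1 : |p1 - α| ≤ 1 / 25) (h2 : |p2 - β| ≤ 1 / 25)
    (h3 : |r1 - γ| ≤ 1 / 25) (h4 : |r2 - δ| ≤ 1 / 25) (ha : |α| ≤ 2) (hb : |β| ≤ 2)
    (hc : |γ| ≤ 2) (hd : |δ| ≤ 2) (hdet : 1 / 2 < α * δ - β * γ) : 0 < p1 * r2 - p2 * r1 := by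
  have e1 : |(p1 - α) * δ| ≤ 1 / 25 * 2 := by
    rw [abs_mul]; exact mul_le_mul h1 hd (abs_nonneg _) (by norm_num)
  have e2 : |α * (r2 - δ)| ≤ 2 * (1 / 25) := by
    rw [abs_mul]; exact mul_le_mul ha h4 (abs_nonneg _) (by norm_num)
  have e3 : |(p1 - α) * (r2 - δ)| ≤ 1 / 25 * (1 / 25) := by
    rw [abs_mul]; exact mul_le_mul h1 h4 (abs_nonneg _) (by norm_num)
  have e4 : |(p2 - β) * γ| ≤ 1 / 25 * 2 := by
    rw [abs_mul]; exact mul_le_mul h2 hc (abs_nonneg _) (by norm_num)
  have e5 : |β * (r1 - γ)| ≤ 2 * (1 / 25) := by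
    rw [abs_mul]; exact mul_le_mul hb h3 (abs_nonneg _) (by norm_num)
  have e6 : |(p2 - β) * (r1 - γ)| ≤ 1 / 25 * (1 / 25) := by
    rw [abs_mul]; exact mul_le_mul h2 h3 (abs_nonneg _) (by norm_num)
  have key : p1 * r2 - p2 * r1 = (α * δ - β * γ) + (p1 - α) * δ + α * (r2 - δ)
      + (p1 - α) * (r2 - δ) - (p2 - β) * γ - β * (r1 - γ) - (p2 - β) * (r1 - γ) := by ring
  rw [key]
  have f1 := (abs_le.1 e1).1
  have f2 := (abs_le.1 e2).1
  have f3 := (abs_le.1 e3).1
  have f4 := (abs_le.1 e4).2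
  have f5 := (abs_le.1 e5).2
  have f6 := (abs_le.1 e6).2
  linarith

lemma lin2 {a b s1 s2 t1 t2 : ℝ} (h1 : a * s1 + b * s2 = 0) (h2 : a * t1 + b * t2 = 0)
    (hdet : s1 * t2 - s2 * t1 ≠ 0) : a = 0 ∧ b = 0 := by
  have ha : a * (s1 * t2 - s2 * t1) = 0 := by linear_combination t2 * h1 - s2 * h2
  have hb : b * (s1 * t2 - s2 * t1) = 0 := by linear_combination s1 * h2 - t1 * h1
  exact ⟨(mul_eq_zero.1 ha).resolve_right hdet, (mul_eq_zero.1 hb).resolve_right hdet⟩

/-- approximate cross product of `b - a` and `d - c`, scaled -/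
def detL (a b c d : Fin 24) : ℤ :=
  ((L b).1 - (L a).1) * ((L d).2 - (L c).2) - ((L b).2 - (L a).2) * ((L d).1 - (L c).1)

/-- difference of approximate coordinates is at most 2 -/
def smallL (a b : Fin 24) : Bool :=
  decide (|(L b).1 - (L a).1| ≤ 20000) && decide (|(L b).2 - (L a).2| ≤ 20000)

lemma smallL_spec {a b : Fin 24} (hs : smallL a b = true) :
    |((L b).1 / 10000 - (L a).1 / 10000 : ℝ)| ≤ 2 ∧ |((L b).2 / 10000 - (L a).2 / 10000 : ℝ)| ≤ 2 := by
  unfold smallL at hs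
  rw [Bool.and_eq_true, decide_eq_true_eq, decide_eq_true_eq] at hs
  have h1 : |(((L b).1 - (L a).1 : ℤ) : ℝ)| ≤ 20000 := by exact_mod_cast hs.1
  have h2 : |(((L b).2 - (L a).2 : ℤ) : ℝ)| ≤ 20000 := by exact_mod_cast hs.2
  push_cast at h1 h2
  rw [abs_le] at h1 h2
  constructor <;> rw [abs_le] <;> constructor <;> linarith [h1.1, h1.2, h2.1, h2.2]

lemma close_sub {z : Fin 24 → ℂ} (H : Good z) (a b : Fin 24) :
    |((z b).re - (z a).re) - ((L b).1 / 10000 - (L a).1 / 10000)| ≤ 1 / 25 ∧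
    |((z b).im - (z a).im) - ((L b).2 / 10000 - (L a).2 / 10000)| ≤ 1 / 25 := by
  have ha := H.close a
  have hb := H.close b
  rw [abs_le, abs_le] at ha hb
  constructor <;> rw [abs_le] <;> constructor <;> linarith [ha.1.1, ha.1.2, ha.2.1, ha.2.2, hb.1.1,
    hb.1.2, hb.2.1, hb.2.2]

lemma cross_pos' {z : Fin 24 → ℂ} (H : Good z) (a b c d : Fin 24) (h1 : smallL a b = true)
    (h2 : smallL c d = true) (h3 : decide (50000000 < detL a b c d) = true) :
    0 < ((z b).re - (z a).re) * ((z d).im - (z c).im) -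
      ((z b).im - (z a).im) * ((z d).re - (z c).re) := by
  rw [decide_eq_true_eq] at h3
  have h3' : (50000000 : ℝ) < ((detL a b c d : ℤ) : ℝ) := by exact_mod_cast h3
  unfold detL at h3'
  push_cast at h3'
  refine cross_pos (close_sub H a b).1 (close_sub H a b).2 (close_sub H c d).1 (close_sub H c d).2
    (smallL_spec h1).1 (smallL_spec h1).2 (smallL_spec h2).1 (smallL_spec h2).2 ?_
  nlinarith

lemma tri_aux {a b c : ℂ} (hab : ‖a - b‖ = 1) (hac : ‖a - c‖ = 1) (hbc : ‖b - c‖ = 1)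
    (hpos : 0 < (b.re - a.re) * (c.im - a.im) - (b.im - a.im) * (c.re - a.re)) :
    c = a + eta * (b - a) := by
  have h1 := sq_of_norm hab
  have h2 := sq_of_norm hac
  have h3 := sq_of_norm hbc
  have hd : (b.re - a.re) * (c.re - a.re) + (b.im - a.im) * (c.im - a.im) = 1 / 2 := by
    linear_combination (1 / 2) * h1 + (1 / 2) * h2 - (1 / 2) * h3
  set X := (b.re - a.re) * (c.im - a.im) - (b.im - a.im) * (c.re - a.re) with hX
  have hX2 : X ^ 2 = 3 / 4 := by
    have : X ^ 2 + ((b.re - a.re) * (c.re - a.re) + (b.im - a.im) * (c.im - a.im)) ^ 2 =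
        ((a.re - b.re) ^ 2 + (a.im - b.im) ^ 2) * ((a.re - c.re) ^ 2 + (a.im - c.im) ^ 2) := by
      rw [hX]; ring
    rw [hd, h1, h2] at this
    linarith
  have hXh : X = h := by
    have hh0 : 0 < h := by linarith [h_lo]
    have : (X - h) * (X + h) = 0 := by linear_combination hX2 - hh
    rcases mul_eq_zero.1 this with h4 | h4
    · linarith
    · linarith
  apply Complex.ext
  · simp only [eta, Complex.add_re, Complex.mul_re, Complex.sub_re, Complex.sub_im]
    rw [← hXh, hX]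
    linear_combination (b.re - a.re) * hd - (c.re - a.re) * h1
  · simp only [eta, Complex.add_im, Complex.mul_im, Complex.sub_re, Complex.sub_im]
    rw [← hXh, hX]
    linear_combination (b.im - a.im) * hd - (c.im - a.im) * h1

lemma rho_aux {a b c d : ℂ} (hab : ‖a - b‖ = 1) (hbc : ‖b - c‖ = 1) (hdc : ‖d - c‖ = 1)
    (had : ‖a - d‖ = 1)
    (hdet : (b.re - d.re) * (c.im - a.im) - (b.im - d.im) * (c.re - a.re) ≠ 0) :
    c = b + d - a := by
  have h1 := sq_of_norm hab
  have h2 := sq_of_norm hbc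
  have h3 := sq_of_norm hdc
  have h4 := sq_of_norm had
  have k1 : (b.re + d.re - a.re - c.re) * (b.re - d.re) +
      (b.im + d.im - a.im - c.im) * (b.im - d.im) = 0 := by
    linear_combination (1 / 2) * h1 + (1 / 2) * h2 - (1 / 2) * h3 - (1 / 2) * h4
  have k2 : (b.re + d.re - a.re - c.re) * (c.re - a.re) +
      (b.im + d.im - a.im - c.im) * (c.im - a.im) = 0 := by
    linear_combination (1 / 2) * h1 + (1 / 2) * h4 - (1 / 2) * h2 - (1 / 2) * h3
  obtain ⟨m1, m2⟩ := lin2 k1 k2 hdet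
  apply Complex.ext
  · simp only [Complex.sub_re, Complex.add_re]; linarith
  · simp only [Complex.sub_im, Complex.add_im]; linarith

lemma tri {z : Fin 24 → ℂ} (H : Good z) (a b c : Fin 24)
    (hc : (adjB a b && adjB a c && adjB b c && smallL a b && smallL a c &&
      decide (50000000 < detL a b a c)) = true) : z c = z a + eta * (z b - z a) := by
  simp only [Bool.and_eq_true] at hc
  obtain ⟨⟨⟨⟨⟨h1, h2⟩, h3⟩, h4⟩, h5⟩, h6⟩ := hc
  exact tri_aux (H.unit _ _ h1) (H.unit _ _ h2) (H.unit _ _ h3) (cross_pos' H a b a c h4 h5 h6)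

lemma rho {z : Fin 24 → ℂ} (H : Good z) (a b c d : Fin 24)
    (hc : (adjB a b && adjB b c && adjB d c && adjB a d && smallL d b && smallL a c &&
      decide (50000000 < detL d b a c)) = true) : z c = z b + z d - z a := by
  simp only [Bool.and_eq_true] at hc
  obtain ⟨⟨⟨⟨⟨⟨h1, h2⟩, h3⟩, h3'⟩, h4⟩, h5⟩, h6⟩ := hc
  exact rho_aux (H.unit _ _ h1) (H.unit _ _ h2) (H.unit _ _ h3) (H.unit _ _ h3')
    (cross_pos' H d b a c h4 h5 h6).ne'

lemma eta_sq : eta ^ 2 = eta - 1 := by
  rw [pow_two]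
  apply Complex.ext
  · simp only [eta, Complex.mul_re, Complex.sub_re, Complex.one_re]
    linear_combination -hh
  · simp only [eta, Complex.mul_im, Complex.sub_im, Complex.one_im]
    ring

/-- the consequences of the rods, for a configuration near the nominal one -/
structure Facts (z : Fin 24 → ℂ) : Prop where
  f5 : z 5 = eta * z 4
  f6 : z 6 = (1 + eta) * z 4
  f7 : z 7 = 1 - eta
  f8 : z 8 = 2 - eta
  f9 : z 9 = 2
  f10 : z 10 = 1 + z 2
  f11 : z 11 = 1 + z 2 - eta * (z 2 - 1)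
  f12 : z 12 = 1 + z 2 + (1 - eta) * (z 2 - 1)
  f13 : z 13 = 1 + z 2 + (z 2 - 1)
  f14 : z 14 = 1 + z 2 + eta * (z 2 - 1)
  f15 : z 15 = z 2 + eta * (z 2 - 1)
  f16 : z 16 = z 2 + eta * (z 2 - 1) + eta
  g15 : z 15 = z 6 + 2 * (z 17 - z 6)
  g18 : z 18 = z 6 + eta * (z 17 - z 6)
  g19 : z 19 = z 6 + (1 + eta) * (z 17 - z 6)
  g20 : z 20 = z 6 + 2 * eta * (z 17 - z 6)
  g16 : z 16 = z 20 + 2 * (z 21 - z 20)
  g22 : z 22 = z 20 + eta * (z 21 - z 20)
  g23 : z 23 = z 20 + (1 + eta) * (z 21 - z 20)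

lemma facts {z : Fin 24 → ℂ} (H : Good z) : Facts z := by
  have z0 := H.z0
  have z1 := H.z1
  have T1 := tri H 0 4 5 (by decide)
  have T2 := tri H 5 4 6 (by decide)
  have T3 := tri H 1 0 7 (by decide)
  have T4 := tri H 1 7 8 (by decide)
  have T5 := tri H 1 8 9 (by decide)
  have R1 := rho H 1 9 10 2 (by decide)
  have T6 := tri H 10 9 11 (by decide)
  have T7 := tri H 10 11 12 (by decide)
  have T8 := tri H 10 12 13 (by decide)
  have T9 := tri H 10 13 14 (by decide)
  have R2 := rho H 2 10 14 15 (by decide)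
  have T10 := tri H 15 14 16 (by decide)
  have T11 := tri H 6 17 18 (by decide)
  have T12 := tri H 17 19 18 (by decide)
  have T13 := tri H 17 15 19 (by decide)
  have T14 := tri H 19 20 18 (by decide)
  have T15 := tri H 20 21 22 (by decide)
  have T16 := tri H 21 23 22 (by decide)
  have T17 := tri H 21 16 23 (by decide)
  have e2 := eta_sq
  have e3 : eta ^ 3 = -1 := by linear_combination (eta + 1) * e2
  have eu : (1 - eta) * eta = 1 := by linear_combination -e2
  have f5 : z 5 = eta * z 4 := by rw [T1, z0]; ring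
  have f6 : z 6 = (1 + eta) * z 4 := by rw [T2, f5]; linear_combination (-z 4) * e2
  have f7 : z 7 = 1 - eta := by rw [T3, z0, z1]; ring
  have f8 : z 8 = 2 - eta := by rw [T4, f7, z1]; linear_combination -e2
  have f9 : z 9 = 2 := by rw [T5, f8, z1]; linear_combination -e2
  have f10 : z 10 = 1 + z 2 := by rw [R1, f9, z1]; ring
  have f11 : z 11 = 1 + z 2 - eta * (z 2 - 1) := by rw [T6, f10, f9]; ring
  have f12 : z 12 = 1 + z 2 + (1 - eta) * (z 2 - 1) := by
    rw [T7, f11, f10]; linear_combination (-(z 2 - 1)) * e2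
  have f13 : z 13 = 1 + z 2 + (z 2 - 1) := by
    rw [T8, f12, f10]; linear_combination (-(z 2 - 1)) * e2
  have f14 : z 14 = 1 + z 2 + eta * (z 2 - 1) := by rw [T9, f13, f10]; ring
  have f15 : z 15 = z 2 + eta * (z 2 - 1) := by
    rw [f14, f10] at R2
    linear_combination -R2
  have f16 : z 16 = z 2 + eta * (z 2 - 1) + eta := by rw [T10, f15, f14]; ring
  have k19 : z 19 - z 17 = eta * (z 17 - z 6) := by
    have : eta * (z 19 - z 17) = eta ^ 2 * (z 17 - z 6) := by
      linear_combination T11 - T12 - (z 17 - z 6) * e2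
    calc z 19 - z 17 = (1 - eta) * (eta * (z 19 - z 17)) := by
          linear_combination (-(z 19 - z 17)) * eu
      _ = (1 - eta) * (eta ^ 2 * (z 17 - z 6)) := by rw [this]
      _ = eta * (z 17 - z 6) := by linear_combination (eta * (z 17 - z 6)) * eu
  have k15 : z 15 - z 17 = z 17 - z 6 := by
    have : eta * (z 15 - z 17) = eta * (z 17 - z 6) := by linear_combination k19 - T13
    calc z 15 - z 17 = (1 - eta) * (eta * (z 15 - z 17)) := by
          linear_combination (-(z 15 - z 17)) * eu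
      _ = (1 - eta) * (eta * (z 17 - z 6)) := by rw [this]
      _ = z 17 - z 6 := by linear_combination (z 17 - z 6) * eu
  have k20 : z 20 - z 19 = (eta - 1) * (z 17 - z 6) := by
    have : eta * (z 20 - z 19) = - (z 17 - z 6) := by
      linear_combination T11 - T14 - k19
    calc z 20 - z 19 = (1 - eta) * (eta * (z 20 - z 19)) := by
          linear_combination (-(z 20 - z 19)) * eu
      _ = (1 - eta) * (- (z 17 - z 6)) := by rw [this]
      _ = _ := by ring
  have l23 : z 23 - z 21 = eta * (z 21 - z 20) := by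
    have : eta * (z 23 - z 21) = eta ^ 2 * (z 21 - z 20) := by
      linear_combination T15 - T16 - (z 21 - z 20) * e2
    calc z 23 - z 21 = (1 - eta) * (eta * (z 23 - z 21)) := by
          linear_combination (-(z 23 - z 21)) * eu
      _ = (1 - eta) * (eta ^ 2 * (z 21 - z 20)) := by rw [this]
      _ = eta * (z 21 - z 20) := by linear_combination (eta * (z 21 - z 20)) * eu
  have l16 : z 16 - z 21 = z 21 - z 20 := by
    have : eta * (z 16 - z 21) = eta * (z 21 - z 20) := by linear_combination l23 - T17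
    calc z 16 - z 21 = (1 - eta) * (eta * (z 16 - z 21)) := by
          linear_combination (-(z 16 - z 21)) * eu
      _ = (1 - eta) * (eta * (z 21 - z 20)) := by rw [this]
      _ = z 21 - z 20 := by linear_combination (z 21 - z 20) * eu
  exact
    { f5 := f5, f6 := f6, f7 := f7, f8 := f8, f9 := f9, f10 := f10, f11 := f11, f12 := f12
      f13 := f13, f14 := f14, f15 := f15, f16 := f16
      g15 := by linear_combination k15
      g18 := T11
      g19 := by linear_combination k19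
      g20 := by linear_combination k20 + k19
      g16 := by linear_combination l16
      g22 := T15
      g23 := by linear_combination l23 }

lemma L2 : L 2 = (13090, 9511) := rfl
lemma L3 : L 3 = (5000, 15388) := rfl
lemma L4 : L 4 = (-3090, 9511) := rfl
lemma L6 : L 6 = (-12872, 11590) := rfl
lemma L17 : L 17 = (-3236, 14266) := rfl

lemma v_eq {z : Fin 24 → ℂ} (H : Good z) :
    ((z 17 - z 6).re) ^ 2 + ((z 17 - z 6).im) ^ 2 = 1 ∧
    (z 17 - z 6).re = 1 / 2 + 2 * h * (z 17 - z 6).im ∧ 0 < (z 17 - z 6).im := by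
  have F := facts H
  have h1 := sq_of_norm (H.unit 17 6 (by decide))
  have h2 := sq_of_norm (H.unit 21 20 (by decide))
  have hv : z 21 - z 20 = (z 17 - z 6) * (1 - eta) + eta / 2 := by
    have a1 := F.g16
    have a2 := F.f16
    have a3 := F.g15
    have a4 := F.f15
    have a5 := F.g20
    linear_combination (-1 / 2) * a1 + (1 / 2) * a2 - (1 / 2) * a4 + (1 / 2) * a3 - (1 / 2) * a5
  have hre : (z 21).re - (z 20).re =
      (z 17 - z 6).re / 2 + h * (z 17 - z 6).im + 1 / 4 := by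
    have := congrArg Complex.re hv
    simp only [Complex.sub_re, Complex.add_re, Complex.mul_re, Complex.sub_im, Complex.one_re,
      Complex.one_im, eta, Complex.div_ofNat_re] at this
    rw [this]
    simp only [Complex.sub_re, Complex.sub_im]
    ring
  have him : (z 21).im - (z 20).im =
      (z 17 - z 6).im / 2 - h * (z 17 - z 6).re + h / 2 := by
    have := congrArg Complex.im hv
    simp only [Complex.sub_re, Complex.add_im, Complex.mul_im, Complex.sub_im, Complex.one_re,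
      Complex.one_im, eta, Complex.div_ofNat_im] at this
    rw [this]
    simp only [Complex.sub_re, Complex.sub_im]
    ring
  rw [hre, him] at h2
  have hn : ((z 17 - z 6).re) ^ 2 + ((z 17 - z 6).im) ^ 2 = 1 := by
    simp only [Complex.sub_re, Complex.sub_im]
    exact h1
  refine ⟨hn, ?_, ?_⟩
  · have e1 := hh
    set a := (z 17 - z 6).re
    set b := (z 17 - z 6).im
    linear_combination (-2) * h2 + (1 / 2 + 2 * h ^ 2) * hn
      + (2 - 2 * a + 1 / 2) * e1
  · have := close_sub H 6 17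
    have h3 := (abs_le.1 this.2).1
    simp only [Complex.sub_im]
    norm_num [L6, L17] at h3
    linarith

lemma uniq {z z' : Fin 24 → ℂ} (H : Good z) (H' : Good z') : z = z' := by
  have F := facts H
  have F' := facts H'
  -- the direction of the first bar
  have hv : z 17 - z 6 = z' 17 - z' 6 := by
    obtain ⟨a1, a2, a3⟩ := v_eq H
    obtain ⟨b1, b2, b3⟩ := v_eq H'
    have hh0 : 0 < h := by linarith [h_lo]
    have e1 := hh
    have him : (z 17 - z 6).im = (z' 17 - z' 6).im := by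
      rw [a2] at a1
      rw [b2] at b1
      have key : ((z 17 - z 6).im - (z' 17 - z' 6).im) *
          (4 * ((z 17 - z 6).im + (z' 17 - z' 6).im) + 2 * h) = 0 := by
        linear_combination a1 - b1 - 4 * ((z 17 - z 6).im ^ 2 - (z' 17 - z' 6).im ^ 2) * e1
      rcases mul_eq_zero.1 key with k | k
      · linarith
      · linarith
    apply Complex.ext
    · rw [a2, b2, him]
    · exact him
  -- the difference of the two pentagon directions
  have hs : z 2 - z 4 = z' 2 - z' 4 := by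
    have hne : (1 + eta) ≠ 0 := by
      intro h0
      have := congrArg Complex.re h0
      simp [eta] at this
      norm_num at this
    have k : (1 + eta) * (z 2 - z 4) = (1 + eta) * (z' 2 - z' 4) := by
      linear_combination F.g15 - F.f15 - F'.g15 + F'.f15 + 2 * hv + F.f6 - F'.f6
    exact mul_left_cancel₀ hne k
  have h24 : z 2 = z' 2 ∧ z 4 = z' 4 := by
    have u1 := sq_of_norm (H.unit 2 1 (by decide))
    have u2 := sq_of_norm (H'.unit 2 1 (by decide))
    have u3 := sq_of_norm (H.unit 4 0 (by decide))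
    have u4 := sq_of_norm (H'.unit 4 0 (by decide))
    rw [H.z1] at u1
    rw [H'.z1] at u2
    rw [H.z0] at u3
    rw [H'.z0] at u4
    simp only [Complex.one_re, Complex.one_im, Complex.zero_re, Complex.zero_im, sub_zero] at u1 u2 u3 u4
    have sre := congrArg Complex.re hs
    have sim := congrArg Complex.im hs
    simp only [Complex.sub_re, Complex.sub_im] at sre sim
    have k1 : ((z 2).re - (z' 2).re) * ((z 2).re + (z' 2).re - 2) +
        ((z 2).im - (z' 2).im) * ((z 2).im + (z' 2).im) = 0 := by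
      linear_combination u1 - u2
    have k2 : ((z 2).re - (z' 2).re) * ((z 4).re + (z' 4).re) +
        ((z 2).im - (z' 2).im) * ((z 4).im + (z' 4).im) = 0 := by
      linear_combination u3 - u4 + ((z 4).re + (z' 4).re) * sre + ((z 4).im + (z' 4).im) * sim
    have c2 := H.close 2
    have c2' := H'.close 2
    have c4 := H.close 4
    have c4' := H'.close 4
    simp only [abs_le] at c2 c2' c4 c4'
    norm_num [L2, L4] at c2 c2' c4 c4'
    obtain ⟨⟨q1, q2⟩, q3, q4⟩ := c2
    obtain ⟨⟨r1, r2⟩, r3, r4⟩ := c2'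
    obtain ⟨⟨s1, s2⟩, s3, s4⟩ := c4
    obtain ⟨⟨t1, t2⟩, t3, t4⟩ := c4'
    have hdet : ((z 2).re + (z' 2).re - 2) * ((z 4).im + (z' 4).im) -
        ((z 2).im + (z' 2).im) * ((z 4).re + (z' 4).re) ≠ 0 := by
      apply ne_of_gt
      have A : (0.5 : ℝ) < (z 2).re + (z' 2).re - 2 := by linarith
      have B : (1.8 : ℝ) < (z 4).im + (z' 4).im := by linarith
      have C' : (1.8 : ℝ) < (z 2).im + (z' 2).im := by linarith
      have D : (0.5 : ℝ) < -((z 4).re + (z' 4).re) := by linarith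
      nlinarith [mul_pos (sub_pos.2 A) (sub_pos.2 B), mul_pos (sub_pos.2 C') (sub_pos.2 D)]
    obtain ⟨m1, m2⟩ := lin2 k1 k2 hdet
    constructor
    · apply Complex.ext <;> linarith
    · apply Complex.ext <;> linarith
  obtain ⟨h2, h4⟩ := h24
  have h3 : z 3 = z' 3 := by
    have u1 := sq_of_norm (H.unit 3 2 (by decide))
    have u2 := sq_of_norm (H'.unit 3 2 (by decide))
    have u3 := sq_of_norm (H.unit 3 4 (by decide))
    have u4 := sq_of_norm (H'.unit 3 4 (by decide))
    rw [← h2] at u2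
    rw [← h4] at u4
    have k1 : ((z 3).re - (z' 3).re) * ((z 3).re + (z' 3).re - 2 * (z 2).re) +
        ((z 3).im - (z' 3).im) * ((z 3).im + (z' 3).im - 2 * (z 2).im) = 0 := by
      linear_combination u1 - u2
    have k2 : ((z 3).re - (z' 3).re) * ((z 3).re + (z' 3).re - 2 * (z 4).re) +
        ((z 3).im - (z' 3).im) * ((z 3).im + (z' 3).im - 2 * (z 4).im) = 0 := by
      linear_combination u3 - u4
    have c2 := H.close 2
    have c4 := H.close 4
    have c3 := H.close 3
    have c3' := H'.close 3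
    simp only [abs_le] at c2 c3 c4 c3'
    norm_num [L2, L3, L4] at c2 c3 c4 c3'
    obtain ⟨⟨q1, q2⟩, q3, q4⟩ := c2
    obtain ⟨⟨r1, r2⟩, r3, r4⟩ := c3
    obtain ⟨⟨s1, s2⟩, s3, s4⟩ := c4
    obtain ⟨⟨t1, t2⟩, t3, t4⟩ := c3'
    have hdet : ((z 3).re + (z' 3).re - 2 * (z 2).re) * ((z 3).im + (z' 3).im - 2 * (z 4).im) -
        ((z 3).im + (z' 3).im - 2 * (z 2).im) * ((z 3).re + (z' 3).re - 2 * (z 4).re) ≠ 0 := by
      apply ne_of_lt
      have A : (1.5 : ℝ) < -((z 3).re + (z' 3).re - 2 * (z 2).re) := by linarith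
      have B : (1.0 : ℝ) < (z 3).im + (z' 3).im - 2 * (z 4).im := by linarith
      have C' : (1.0 : ℝ) < (z 3).im + (z' 3).im - 2 * (z 2).im := by linarith
      have D : (1.5 : ℝ) < (z 3).re + (z' 3).re - 2 * (z 4).re := by linarith
      nlinarith [mul_pos (sub_pos.2 A) (sub_pos.2 B), mul_pos (sub_pos.2 C') (sub_pos.2 D)]
    obtain ⟨m1, m2⟩ := lin2 k1 k2 hdet
    apply Complex.ext <;> linarith
  have h6 : z 6 = z' 6 := by rw [F.f6, F'.f6, h4]
  have h17 : z 17 = z' 17 := by linear_combination hv + h6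
  have h20 : z 20 = z' 20 := by rw [F.g20, F'.g20, h6, h17]
  have h16 : z 16 = z' 16 := by rw [F.f16, F'.f16, h2]
  have h21 : z 21 = z' 21 := by
    linear_combination (-1 / 2) * F.g16 + (1 / 2) * F'.g16 + (1 / 2) * h16 + (1 / 2) * h20
  funext i
  fin_cases i
  · exact H.z0.trans H'.z0.symm
  · exact H.z1.trans H'.z1.symm
  · exact h2
  · exact h3
  · exact h4
  · show z 5 = z' 5
    rw [F.f5, F'.f5, h4]
  · exact h6
  · exact F.f7.trans F'.f7.symm
  · exact F.f8.trans F'.f8.symm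
  · exact F.f9.trans F'.f9.symm
  · show z 10 = z' 10
    rw [F.f10, F'.f10, h2]
  · show z 11 = z' 11
    rw [F.f11, F'.f11, h2]
  · show z 12 = z' 12
    rw [F.f12, F'.f12, h2]
  · show z 13 = z' 13
    rw [F.f13, F'.f13, h2]
  · show z 14 = z' 14
    rw [F.f14, F'.f14, h2]
  · show z 15 = z' 15
    rw [F.f15, F'.f15, h2]
  · exact h16
  · exact h17
  · show z 18 = z' 18
    rw [F.g18, F'.g18, h6, h17]
  · show z 19 = z' 19
    rw [F.g19, F'.g19, h6, h17]
  · exact h20
  · exact h21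
  · show z 22 = z' 22
    rw [F.g22, F'.g22, h20, h21]
  · show z 23 = z' 23
    rw [F.g23, F'.g23, h20, h21]

/-- two segments are separated by the linear functional with integer coefficients `w` -/
def sepW (w : ℤ × ℤ) (a b c d : Fin 24) : Bool :=
  decide (w.1 * (L a).1 + w.2 * (L a).2 + 4 * (|w.1| + |w.2|) < w.1 * (L c).1 + w.2 * (L c).2) &&
  decide (w.1 * (L a).1 + w.2 * (L a).2 + 4 * (|w.1| + |w.2|) < w.1 * (L d).1 + w.2 * (L d).2) &&
  decide (w.1 * (L b).1 + w.2 * (L b).2 + 4 * (|w.1| + |w.2|) < w.1 * (L c).1 + w.2 * (L c).2) &&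
  decide (w.1 * (L b).1 + w.2 * (L b).2 + 4 * (|w.1| + |w.2|) < w.1 * (L d).1 + w.2 * (L d).2)

/-- try the normals and the direction of the segments -/
def sepB (a b c d : Fin 24) : Bool :=
  let u := ((L b).1 - (L a).1, (L b).2 - (L a).2)
  let v := ((L d).1 - (L c).1, (L d).2 - (L c).2)
  sepW (-u.2, u.1) a b c d || sepW (u.2, -u.1) a b c d ||
  sepW (-v.2, v.1) a b c d || sepW (v.2, -v.1) a b c d ||
  sepW u a b c d || sepW (-u.1, -u.2) a b c d

lemma lin_close (w : ℤ × ℤ) (i : Fin 24) :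
    |(w.1 : ℝ) * (P i).re + w.2 * (P i).im - (w.1 * (L i).1 + w.2 * (L i).2) / 10000| ≤
      (|(w.1 : ℝ)| + |(w.2 : ℝ)|) * (2 / 10000) := by
  obtain ⟨h1, h2⟩ := P_close i
  have e1 : |(w.1 : ℝ) * ((P i).re - (L i).1 / 10000)| ≤ |(w.1 : ℝ)| * (2 / 10000) := by
    rw [abs_mul]; exact mul_le_mul_of_nonneg_left h1 (abs_nonneg _)
  have e2 : |(w.2 : ℝ) * ((P i).im - (L i).2 / 10000)| ≤ |(w.2 : ℝ)| * (2 / 10000) := by
    rw [abs_mul]; exact mul_le_mul_of_nonneg_left h2 (abs_nonneg _)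
  have key : (w.1 : ℝ) * (P i).re + w.2 * (P i).im - (w.1 * (L i).1 + w.2 * (L i).2) / 10000 =
      (w.1 : ℝ) * ((P i).re - (L i).1 / 10000) + (w.2 : ℝ) * ((P i).im - (L i).2 / 10000) := by ring
  rw [key]
  calc _ ≤ _ := abs_add_le _ _
    _ ≤ |(w.1 : ℝ)| * (2 / 10000) + |(w.2 : ℝ)| * (2 / 10000) := add_le_add e1 e2
    _ = _ := by ring

lemma lin_lt {w : ℤ × ℤ} {a c : Fin 24}
    (hlt : w.1 * (L a).1 + w.2 * (L a).2 + 4 * (|w.1| + |w.2|) < w.1 * (L c).1 + w.2 * (L c).2) :
    (w.1 : ℝ) * (P a).re + w.2 * (P a).im < (w.1 : ℝ) * (P c).re + w.2 * (P c).im := by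
  have h1 := (abs_le.1 (lin_close w a)).2
  have h2 := (abs_le.1 (lin_close w c)).1
  have h3 : ((w.1 * (L a).1 + w.2 * (L a).2 + 4 * (|w.1| + |w.2|) : ℤ) : ℝ) <
      ((w.1 * (L c).1 + w.2 * (L c).2 : ℤ) : ℝ) := by exact_mod_cast hlt
  push_cast at h3
  linarith

lemma seg_lin {w1 w2 : ℝ} {a b z : ℂ} {m : ℝ} (hz : z ∈ segment ℝ a b)
    (ha : w1 * a.re + w2 * a.im < m) (hb : w1 * b.re + w2 * b.im < m) :
    w1 * z.re + w2 * z.im < m := by
  obtain ⟨s, t, hs, ht, hst, rfl⟩ := hz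
  simp only [Complex.add_re, Complex.add_im, Complex.smul_re, Complex.smul_im, smul_eq_mul]
  have e : w1 * (s * a.re + t * b.re) + w2 * (s * a.im + t * b.im) =
      s * (w1 * a.re + w2 * a.im) + t * (w1 * b.re + w2 * b.im) := by ring
  rw [e]
  have hm : m = s * m + t * m := by rw [← add_mul, hst, one_mul]
  rcases hs.eq_or_lt with h0 | h0
  · subst h0
    have : t = 1 := by linarith
    subst this
    linarith
  · have h1 : s * (w1 * a.re + w2 * a.im) < s * m := mul_lt_mul_of_pos_left ha h0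
    have h2 : t * (w1 * b.re + w2 * b.im) ≤ t * m := mul_le_mul_of_nonneg_left hb.le ht
    linarith

lemma sepW_spec {w : ℤ × ℤ} {a b c d : Fin 24} (hs : sepW w a b c d = true) {z : ℂ}
    (h1 : z ∈ segment ℝ (P a) (P b)) (h2 : z ∈ segment ℝ (P c) (P d)) : False := by
  unfold sepW at hs
  simp only [Bool.and_eq_true, decide_eq_true_eq] at hs
  obtain ⟨⟨⟨k1, k2⟩, k3⟩, k4⟩ := hs
  have q1 := lin_lt k1
  have q2 := lin_lt k2
  have q3 := lin_lt k3
  have q4 := lin_lt k4
  have r1 : ∀ m : ℝ, (w.1 : ℝ) * (P a).re + w.2 * (P a).im < m →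
      (w.1 : ℝ) * (P b).re + w.2 * (P b).im < m → (w.1 : ℝ) * z.re + w.2 * z.im < m :=
    fun m ha hb => seg_lin h1 ha hb
  have r2 : ∀ m : ℝ, m < (w.1 : ℝ) * (P c).re + w.2 * (P c).im →
      m < (w.1 : ℝ) * (P d).re + w.2 * (P d).im → m < (w.1 : ℝ) * z.re + w.2 * z.im := by
    intro m hc hd
    have := seg_lin (w1 := -(w.1 : ℝ)) (w2 := -(w.2 : ℝ)) (m := -m) h2 (by linarith) (by linarith)
    linarith
  have s1 := r1 _ q1 q3
  have s2 := r1 _ q2 q4
  have := r2 _ s1 s2
  exact lt_irrefl _ this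

lemma sepB_spec {a b c d : Fin 24} (hs : sepB a b c d = true) {z : ℂ}
    (h1 : z ∈ segment ℝ (P a) (P b)) (h2 : z ∈ segment ℝ (P c) (P d)) : False := by
  unfold sepB at hs
  simp only [Bool.or_eq_true] at hs
  rcases hs with ((((k | k) | k) | k) | k) | k
  all_goals exact sepW_spec k h1 h2

/-- do two rods share an end joint -/
def share (e f : Fin 24 × Fin 24) : Bool :=
  decide (e.1 = f.1) || decide (e.1 = f.2) || decide (e.2 = f.1) || decide (e.2 = f.2)

lemma all_sep : (rodList.all fun e => rodList.all fun f =>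
    share e f || sepB e.1 e.2 f.1 f.2) = true := by
  decide +kernel

lemma seg_common {o a b z : ℂ} (ha : ‖o - a‖ = 1) (hb : ‖o - b‖ = 1) (hab : a ≠ b)
    (h1 : z ∈ segment ℝ o a) (h2 : z ∈ segment ℝ o b) : z = o := by
  obtain ⟨s, t, hs, ht, hst, rfl⟩ := h1
  obtain ⟨s', t', hs', ht', hst', heq⟩ := h2
  have e1 : s = 1 - t := by linarith
  have e2 : s' = 1 - t' := by linarith
  subst e1 e2
  simp only [Complex.real_smul, Complex.ofReal_sub, Complex.ofReal_one] at heq ⊢
  have e3 : (t' : ℂ) * (o - b) = (t : ℂ) * (o - a) := by linear_combination -heq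
  have e4 : t' = t := by
    have := congrArg norm e3
    rw [norm_mul, norm_mul, ha, hb, mul_one, mul_one, Complex.norm_real, Complex.norm_real,
      Real.norm_of_nonneg ht, Real.norm_of_nonneg ht'] at this
    exact this
  subst e4
  by_cases h0 : t' = 0
  · subst h0; simp
  · exfalso
    apply hab
    have h0' : (t' : ℂ) ≠ 0 := by exact_mod_cast h0
    have := mul_left_cancel₀ h0' e3
    linear_combination this

lemma P_injective : Function.Injective P := by
  intro i j hij
  by_contra hne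
  have h1 := P_close i
  have h2 := P_close j
  rw [hij] at h1
  have k1 : |((L i).1 : ℝ) - (L j).1| ≤ 4 := by
    have a1 := abs_le.1 h1.1
    have a2 := abs_le.1 h2.1
    rw [abs_le]
    constructor <;> linarith [a1.1, a1.2, a2.1, a2.2]
  have k2 : |((L i).2 : ℝ) - (L j).2| ≤ 4 := by
    have a1 := abs_le.1 h1.2
    have a2 := abs_le.1 h2.2
    rw [abs_le]
    constructor <;> linarith [a1.1, a1.2, a2.1, a2.2]
  have k1' : |(L i).1 - (L j).1| ≤ 4 := by exact_mod_cast k1
  have k2' : |(L i).2 - (L j).2| ≤ 4 := by exact_mod_cast k2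
  have key : ∀ i j : Fin 24, i ≠ j → |(L i).1 - (L j).1| ≤ 4 → |(L i).2 - (L j).2| ≤ 4 → False := by
    decide +kernel
  exact key i j hne k1' k2'

lemma nc_main {e f : Fin 24 × Fin 24} (he : e ∈ rodList) (hf : f ∈ rodList)
    (hne : s(e.1, e.2) ≠ s(f.1, f.2)) {z : ℂ} (h1 : z ∈ segment ℝ (P e.1) (P e.2))
    (h2 : z ∈ segment ℝ (P f.1) (P f.2)) :
    ∃ m, (m = e.1 ∨ m = e.2) ∧ (m = f.1 ∨ m = f.2) ∧ z = P m := by
  have hall := all_sep
  rw [List.all_eq_true] at hall
  have h3 := hall e he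
  rw [List.all_eq_true] at h3
  have h4 := h3 f hf
  rw [Bool.or_eq_true] at h4
  have ue := P_unit e he
  have uf := P_unit f hf
  rcases h4 with h4 | h4
  · unfold share at h4
    simp only [Bool.or_eq_true, decide_eq_true_eq] at h4
    rcases h4 with ((k | k) | k) | k
    · refine ⟨e.1, Or.inl rfl, Or.inl k, ?_⟩
      rw [← k] at h2 uf
      refine seg_common ue uf (fun h5 => hne ?_) h1 h2
      rw [k, P_injective h5]
    · refine ⟨e.1, Or.inl rfl, Or.inr k, ?_⟩
      rw [← k, segment_symm] at h2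
      rw [← k, norm_sub_rev] at uf
      refine seg_common ue uf (fun h5 => hne ?_) h1 h2
      rw [k, P_injective h5, Sym2.eq_swap]
    · refine ⟨e.2, Or.inr rfl, Or.inl k, ?_⟩
      rw [segment_symm] at h1
      rw [norm_sub_rev] at ue
      rw [← k] at h2 uf
      refine seg_common ue uf (fun h5 => hne ?_) h1 h2
      rw [k, P_injective h5, Sym2.eq_swap]
    · refine ⟨e.2, Or.inr rfl, Or.inr k, ?_⟩
      rw [segment_symm] at h1 h2
      rw [norm_sub_rev] at ue uf
      rw [← k] at h2 uf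
      refine seg_common ue uf (fun h5 => hne ?_) h1 h2
      rw [k, P_injective h5]
  · exact absurd (sepB_spec h4 h1 h2) id

lemma nc {i j k l : Fin 24} (hij : adjB i j = true) (hkl : adjB k l = true)
    (hne : s(i, j) ≠ s(k, l)) {z : ℂ} (h1 : z ∈ segment ℝ (P i) (P j))
    (h2 : z ∈ segment ℝ (P k) (P l)) :
    ∃ m, (m = i ∨ m = j) ∧ (m = k ∨ m = l) ∧ z = P m := by
  rcases adj_cases hij with a | a <;> rcases adj_cases hkl with b | b
  · exact nc_main a b hne h1 h2
  · rw [segment_symm] at h2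
    rw [Sym2.eq_swap (a := k)] at hne
    obtain ⟨m, m1, m2, m3⟩ := nc_main a b hne h1 h2
    exact ⟨m, m1, m2.symm, m3⟩
  · rw [segment_symm] at h1
    rw [Sym2.eq_swap (a := i)] at hne
    obtain ⟨m, m1, m2, m3⟩ := nc_main a b hne h1 h2
    exact ⟨m, m1.symm, m2, m3⟩
  · rw [segment_symm] at h1 h2
    rw [Sym2.eq_swap (a := i), Sym2.eq_swap (a := k)] at hne
    obtain ⟨m, m1, m2, m3⟩ := nc_main a b hne h1 h2
    exact ⟨m, m1.symm, m2.symm, m3⟩

/-- the rods as a graph -/
def rodGraph : SimpleGraph (Fin 24) where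
  Adj i j := adjB i j = true
  symm := ⟨fun _ _ hij => adjB_symm hij⟩
  loopless := ⟨by decide⟩

instance : DecidableRel rodGraph.Adj := fun i j => inferInstanceAs (Decidable (adjB i j = true))

lemma has_rod : ∀ k : Fin 24, ∃ l, adjB k l = true := by decide

/-- the structure with 24 joints and 45 rods -/
noncomputable def S : UnitRodStructure where
  n := 24
  joint := P
  rod := rodGraph
  joint_injective := P_injective
  unit_length := fun i j hij => by
    rw [Complex.dist_eq]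
    exact P_unit' hij
  noncrossing := fun i j k l hij hkl hne z h1 h2 => nc hij hkl hne h1 h2
  no_interior_joint := fun i j k hij hk => by
    obtain ⟨l, hl⟩ := has_rod k
    by_cases hs : s(i, j) = s(k, l)
    · rw [Sym2.eq_iff] at hs
      rcases hs with ⟨h1, _⟩ | ⟨_, h2⟩
      · exact Or.inl h1.symm
      · exact Or.inr h2.symm
    · obtain ⟨m, m1, _, m3⟩ := nc hij hl hs hk (left_mem_segment ℝ _ _)
      have := P_injective m3
      subst this
      exact m1

lemma S_rigid : S.IsRigid := by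
  intro γ hγ h0 hlen
  change unitInterval → Fin 24 → ℂ at γ
  change γ 0 = P at h0
  have hlen' : ∀ t i j, adjB i j = true → ‖γ t i - γ t j‖ = 1 := by
    intro t i j hij
    have := hlen t i j hij
    rw [Complex.dist_eq] at this
    rw [this]
    change dist (P i) (P j) = 1
    rw [Complex.dist_eq]
    exact P_unit' hij
  set u : unitInterval → ℂ := fun t => γ t 1 - γ t 0 with hu
  have hun : ∀ t, ‖u t‖ = 1 := fun t => hlen' t 1 0 (by decide)
  have huu : ∀ t, u t * (starRingEnd ℂ) (u t) = 1 := by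
    intro t
    rw [Complex.mul_conj, Complex.normSq_eq_norm_sq, hun t]
    norm_num
  have hcont : ∀ i, Continuous fun t => γ t i := fun i => (continuous_apply i).comp hγ
  have hcu : Continuous u := (hcont 1).sub (hcont 0)
  set z : unitInterval → Fin 24 → ℂ := fun t i => (γ t i - γ t 0) * (starRingEnd ℂ) (u t) with hz
  have hcz : Continuous z := by
    apply continuous_pi
    intro i
    exact ((hcont i).sub (hcont 0)).mul (Complex.continuous_conj.comp hcu)
  have hzP : ∀ t, z t = P := by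
    have hset : {t | z t = P} = {t | dist (z t) P < 1 / 100} := by
      ext t
      constructor
      · intro ht
        have ht' : z t = P := ht
        simp [ht']
      · intro ht
        have ht' : dist (z t) P < 1 / 100 := ht
        apply uniq _ P_good
        refine ⟨by simp [hz], ?_, ?_, ?_⟩
        · exact huu t
        · intro i j hij
          have e : z t i - z t j = (γ t i - γ t j) * (starRingEnd ℂ) (u t) := by
            simp only [hz]; ring
          rw [e, norm_mul, hlen' t i j hij, RCLike.norm_conj, hun t, mul_one]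
        · intro i
          have d1 : ‖z t i - P i‖ < 1 / 100 := by
            rw [← Complex.dist_eq]
            exact lt_of_le_of_lt (dist_le_pi_dist (z t) P i) ht'
          have d2 := Complex.abs_re_le_norm (z t i - P i)
          have d3 := Complex.abs_im_le_norm (z t i - P i)
          obtain ⟨c1, c2⟩ := P_close i
          rw [Complex.sub_re] at d2
          rw [Complex.sub_im] at d3
          constructor
          · have := abs_sub_le (z t i).re (P i).re ((L i).1 / 10000)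
            linarith
          · have := abs_sub_le (z t i).im (P i).im ((L i).2 / 10000)
            linarith
    have hclopen : IsClopen {t | z t = P} := by
      refine ⟨isClosed_eq hcz continuous_const, ?_⟩
      rw [hset]
      exact isOpen_lt (hcz.dist continuous_const) continuous_const
    have hne : ({t | z t = P} : Set unitInterval).Nonempty := by
      refine ⟨0, ?_⟩
      show z 0 = P
      funext i
      have e0 : P 0 = 0 := P_good.z0
      have e1 : P 1 = 1 := P_good.z1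
      simp [hz, hu, h0, e0, e1]
    have huniv := hclopen.eq_univ hne
    intro t
    have : t ∈ ({t | z t = P} : Set unitInterval) := by rw [huniv]; trivial
    exact this
  have hγz : ∀ t i, γ t i = γ t 0 + u t * P i := by
    intro t i
    have e1 : P i = (γ t i - γ t 0) * (starRingEnd ℂ) (u t) := by
      rw [← hzP t]
    rw [e1]
    linear_combination (-(γ t i - γ t 0)) * huu t
  have hmem : ∀ t, u t ∈ Submonoid.unitSphere ℂ := fun t => mem_sphere_zero_iff_norm.2 (hun t)
  refine ⟨fun t => (rotation (⟨u t, hmem t⟩ : Circle)).toIsometryEquiv.trans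
    (IsometryEquiv.addLeft (γ t 0)), ?_, ?_, ?_⟩
  · intro w
    have : (fun t => ((rotation (⟨u t, hmem t⟩ : Circle)).toIsometryEquiv.trans
        (IsometryEquiv.addLeft (γ t 0))) w) = fun t => γ t 0 + u t * w := by
      funext t
      rfl
    rw [this]
    exact (hcont 0).add (hcu.mul continuous_const)
  · apply IsometryEquiv.ext
    intro w
    change γ 0 0 + u 0 * w = w
    have e0 : P 0 = 0 := P_good.z0
    have e1 : P 1 = 1 := P_good.z1
    simp [hu, h0, e0, e1]
  · intro t i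
    exact hγz t i

lemma exp_zeta : Complex.exp (2 * Real.pi * Complex.I / 5) = ⟨x0, y0⟩ := by
  have hc : Real.cos (2 * Real.pi / 5) = x0 := by
    have h1 : Real.cos (Real.pi / 5) = (1 + Real.sqrt 5) / 4 := Real.cos_pi_div_five
    have h2 : 2 * Real.pi / 5 = 2 * (Real.pi / 5) := by ring
    rw [h2, Real.cos_two_mul, h1]
    have h5 : Real.sqrt 5 ^ 2 = 5 := Real.sq_sqrt (by norm_num)
    unfold x0
    linear_combination (1 / 8 : ℝ) * h5
  have hs : Real.sin (2 * Real.pi / 5) = y0 := by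
    have h1 : 0 < Real.sin (2 * Real.pi / 5) := by
      apply Real.sin_pos_of_pos_of_lt_pi
      · positivity
      · linarith [Real.pi_pos]
    have h2 := Real.sin_sq_add_cos_sq (2 * Real.pi / 5)
    rw [hc] at h2
    have h3 := hy
    have h4 : 0 < y0 := by linarith [y0_lo]
    have h5 : (Real.sin (2 * Real.pi / 5) - y0) * (Real.sin (2 * Real.pi / 5) + y0) = 0 := by
      linear_combination h2 - h3
    rcases mul_eq_zero.1 h5 with k | k
    · linarith
    · linarith
  have e : (2 * Real.pi * Complex.I / 5 : ℂ) = ((2 * Real.pi / 5 : ℝ) : ℂ) * Complex.I := by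
    push_cast; ring
  rw [e, Complex.exp_mul_I, ← Complex.ofReal_cos, ← Complex.ofReal_sin, hc, hs]
  apply Complex.ext <;> simp

lemma pent_eq (k : ℕ) : pentagonVertex k = ∑ j ∈ Finset.range k, (⟨x0, y0⟩ : ℂ) ^ j := by
  unfold pentagonVertex
  refine Finset.sum_congr rfl fun j _ => ?_
  rw [← exp_zeta, ← Complex.exp_nat_mul]
  congr 1
  ring

lemma S_card : S.rod.edgeSet.ncard = 5 + 40 := by
  change rodGraph.edgeSet.ncard = 45
  rw [← SimpleGraph.coe_edgeFinset, Set.ncard_coe_finset]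
  decide +kernel

lemma S_bracing : S.IsBracing 40 := by
  refine ⟨S_rigid, ⟨(![0, 1, 2, 3, 4] : Fin 5 → Fin 24), ?_⟩, S_card⟩
  have e2 := hx
  have e3 := hy
  intro i
  rw [pent_eq]
  fin_cases i
  · refine ⟨?_, (by decide : adjB 0 1 = true)⟩
    change P 0 = _
    apply Complex.ext <;> simp [P]
  · refine ⟨?_, (by decide : adjB 1 2 = true)⟩
    change P 1 = _
    apply Complex.ext <;> simp [P]
  · refine ⟨?_, (by decide : adjB 2 3 = true)⟩
    change P 2 = _
    apply Complex.ext <;> simp [P, Finset.sum_range_succ]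
  · refine ⟨?_, (by decide : adjB 3 4 = true)⟩
    change P 3 = _
    apply Complex.ext
    · simp [P, Finset.sum_range_succ, pow_succ]
      linear_combination (-1 / 2) * e2 + e3
    · simp [P, Finset.sum_range_succ, pow_succ]
      ring
  · refine ⟨?_, (by decide : adjB 4 0 = true)⟩
    change P 4 = _
    apply Complex.ext
    · simp [P, Finset.sum_range_succ, pow_succ]
      linear_combination (-x0) * e2 + (1 + 3 * x0) * e3
    · simp [P, Finset.sum_range_succ, pow_succ]
      linear_combination (-y0) * e2 + y0 * e3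

/-- The minimum number `m` of additional rods in a bracing of the regular unit pentagon exists and
is at most `40`; in particular it is not `64`. -/
theorem main : ∃ m ≤ 40, IsLeast {k : ℕ | ∃ S : UnitRodStructure, S.IsBracing k} m := by
  have hne : ({k : ℕ | ∃ S : UnitRodStructure, S.IsBracing k}).Nonempty := ⟨40, S, S_bracing⟩
  exact ⟨sInf {k : ℕ | ∃ S : UnitRodStructure, S.IsBracing k}, Nat.sInf_le ⟨S, S_bracing⟩,
    Nat.sInf_mem hne, fun k hk => Nat.sInf_le hk⟩

end Pool.Agent.Helper36.Pentagon
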